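import Mathlib
import Pool.Agent.NC.Dp

/-!
# Numbers of connected spanning edge sets with a given number of edges

They are the digits of the sum of `B ^ |F|` over the connected spanning edge sets `F` in the base
`B`, and these sums are computed by the dynamic programme in `Pool.Agent.NC.Dp`.
-/

set_option autoImplicit false

namespace Pool.Agent.Helper19.EM

open Finset Pool.Agent.NC

/-- The digit `k` of a sum of digits. -/
theorem digit (c : ℕ → ℕ) (B : ℕ) (hB : 0 < B) (m k : ℕ) (hc : ∀ s, c s < B) (hk : k < m) :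
    (∑ s ∈ range m, c s * B ^ s) / B ^ k % B = c k := by
  induction k generalizing c m with
  | zero =>
    obtain ⟨m, rfl⟩ : ∃ m', m = m' + 1 := ⟨m - 1, by omega⟩
    rw [Finset.sum_range_succ', pow_zero, Nat.div_one]
    have h : ∑ s ∈ range m, c (s + 1) * B ^ (s + 1) = B * ∑ s ∈ range m, c (s + 1) * B ^ s := by
      rw [mul_sum]
      refine sum_congr rfl fun s _ => ?_
      ring
    rw [h, mul_one, Nat.mul_add_mod, Nat.mod_eq_of_lt (hc 0)]
  | succ k ih =>
    obtain ⟨m, rfl⟩ : ∃ m', m = m' + 1 := ⟨m - 1, by omega⟩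
    rw [Finset.sum_range_succ']
    have h : ∑ s ∈ range m, c (s + 1) * B ^ (s + 1) = B * ∑ s ∈ range m, c (s + 1) * B ^ s := by
      rw [mul_sum]
      refine sum_congr rfl fun s _ => ?_
      ring
    rw [h, pow_zero, mul_one, pow_succ', ← Nat.div_div_eq_div_mul, Nat.mul_add_div hB,
      Nat.div_eq_of_lt (hc 0), add_zero]
    exact ih (fun s => c (s + 1)) m (fun s => hc _) (by omega)

section

variable {V : Type} [DecidableEq V]

open Classical in
/-- The number of the connected spanning edge sets `F ⊆ E` with `s` edges which contain `X`. -/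
noncomputable def cnt (E X : Finset (Sym2 V)) (s : ℕ) : ℕ :=
  (E.powerset.filter fun F => F.card = s ∧ X ⊆ F ∧
    (SimpleGraph.fromEdgeSet (F : Set (Sym2 V))).Connected).card

theorem cnt_le (E X : Finset (Sym2 V)) (s : ℕ) : cnt E X s ≤ 2 ^ E.card := by
  classical
  unfold cnt
  exact (card_filter_le _ _).trans (card_powerset E).le

theorem Z_congr {ι L R : Type*} [DecidableEq ι] [SemilatticeSup L] [OrderBot L] [CommSemiring R]
    (g : ι → L) (a b b' : ι → R) (φ : L → R) (E : Finset ι) (r : L) (h : ∀ i ∈ E, b i = b' i) :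
    Z g a b φ E r = Z g a b' φ E r := by
  unfold Z
  refine Finset.sum_congr rfl fun F _ => ?_
  rw [Finset.prod_congr (f := b) (g := b') rfl fun i hi => h i (Finset.mem_sdiff.1 hi).1]

theorem Z_eq_cnt [Nonempty V] (E X : Finset (Sym2 V)) (hX : X ⊆ E) (B : ℕ) :
    Z gS (fun _ => B) (fun i => if i ∈ X then 0 else 1) (phi ℕ) E ⊥ =
      ∑ s ∈ range (E.card + 1), cnt E X s * B ^ s := by
  classical
  have h1 : ∀ F ∈ E.powerset, ((∏ i ∈ F, B) * ∏ i ∈ E \ F, if i ∈ X then 0 else 1) *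
      phi ℕ (⊥ ⊔ F.sup gS) =
      if X ⊆ F ∧ (SimpleGraph.fromEdgeSet (F : Set (Sym2 V))).Connected then B ^ F.card else 0 := by
    intro F hF
    rw [mem_powerset] at hF
    rw [prod_const, bot_sup_eq, phi]
    by_cases h2 : X ⊆ F
    · have h3 : (∏ i ∈ E \ F, if i ∈ X then 0 else 1) = 1 := by
        refine prod_eq_one fun i hi => ?_
        rw [if_neg fun h => (mem_sdiff.1 hi).2 (h2 h)]
      rw [h3, mul_one]
      by_cases h4 : (SimpleGraph.fromEdgeSet (F : Set (Sym2 V))).Connected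
      · rw [if_pos ((connected_iff F).1 h4), if_pos ⟨h2, h4⟩, mul_one]
      · rw [if_neg fun h => h4 ((connected_iff F).2 h), if_neg fun h => h4 h.2, mul_zero]
    · obtain ⟨i, hi, hiF⟩ := not_subset.1 h2
      rw [prod_eq_zero (i := i) (mem_sdiff.2 ⟨hX hi, hiF⟩) (by rw [if_pos hi]), mul_zero, zero_mul,
        if_neg fun h => h2 h.1]
  unfold Z
  rw [sum_congr rfl h1]
  have h2 : ∀ F ∈ E.powerset, F.card ∈ range (E.card + 1) := by
    intro F hF
    rw [mem_powerset] at hF
    exact mem_range.2 (Nat.lt_succ_of_le (card_le_card hF))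
  rw [← sum_fiberwise_of_maps_to h2]
  refine sum_congr rfl fun s _ => ?_
  unfold cnt
  rw [← sum_filter, filter_filter, card_eq_sum_ones, sum_mul]
  refine sum_congr ?_ fun F hF => ?_
  · ext F
    simp only [mem_filter]
  · rw [(mem_filter.1 hF).2.1, one_mul]

/-- The two sums from the values of the programme for the graph without the edge `e`. -/
theorem sums [Nonempty V] (E : Finset (Sym2 V)) (e : Sym2 V) (he : e ∉ E) (B M0 M1 : ℕ)
    (h0 : Z gS (fun _ => B) (fun _ => 1) (phi ℕ) E ⊥ = M0)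
    (h1 : Z gS (fun _ => B) (fun _ => 1) (phi ℕ) E (⊥ ⊔ gS e) = M1) :
    (∑ s ∈ range ((insert e E).card + 1), cnt (insert e E) ∅ s * B ^ s) = M0 + B * M1 ∧
    (∑ s ∈ range ((insert e E).card + 1), cnt (insert e E) {e} s * B ^ s) = B * M1 := by
  rw [← Z_eq_cnt _ _ (empty_subset _), ← Z_eq_cnt _ _ (by simp)]
  rw [Z_insert _ _ _ _ he, Z_insert _ _ _ _ he]
  constructor
  · rw [Z_congr gS _ _ (fun _ => 1) _ E _ (fun i _ => by simp),
      Z_congr gS _ _ (fun _ => 1) _ E (⊥ ⊔ gS e) (fun i _ => by simp), h0, h1]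
    simp
  · have h : ∀ i ∈ E, (if i ∈ ({e} : Finset (Sym2 V)) then 0 else 1) = 1 := by
      intro i hi
      rw [if_neg]
      rw [mem_singleton]
      rintro rfl
      exact he hi
    rw [Z_congr gS _ _ (fun _ => 1) _ E _ h, Z_congr gS _ _ (fun _ => 1) _ E (⊥ ⊔ gS e) h, h0, h1]
    simp

/-- The numbers as digits. -/
theorem cnt_eq [Nonempty V] (E : Finset (Sym2 V)) (e : Sym2 V) (he : e ∉ E) (B M0 M1 : ℕ)
    (hB : 2 ^ (insert e E).card < B)
    (h0 : Z gS (fun _ => B) (fun _ => 1) (phi ℕ) E ⊥ = M0)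
    (h1 : Z gS (fun _ => B) (fun _ => 1) (phi ℕ) E (⊥ ⊔ gS e) = M1) (s : ℕ)
    (hs : s < (insert e E).card + 1) :
    cnt (insert e E) ∅ s = (M0 + B * M1) / B ^ s % B ∧
      cnt (insert e E) {e} s = (B * M1) / B ^ s % B := by
  obtain ⟨h2, h3⟩ := sums E e he B M0 M1 h0 h1
  have hB0 : 0 < B := lt_of_le_of_lt (Nat.zero_le _) hB
  have hc : ∀ X s, cnt (insert e E) X s < B := fun X s => lt_of_le_of_lt (cnt_le _ _ _) hB
  constructor
  · rw [← h2, digit _ B hB0 _ s (hc ∅) hs]
  · rw [← h3, digit _ B hB0 _ s (hc {e}) hs]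

/-- The sets of connected spanning edge sets. -/
theorem ncard_eq (E X : Finset (Sym2 V)) (s : ℕ) :
    {F : Finset (Sym2 V) | (F : Set (Sym2 V)) ⊆ E ∧ F.card = s ∧ X ⊆ F ∧
      (SimpleGraph.fromEdgeSet (F : Set (Sym2 V))).Connected}.ncard = cnt E X s := by
  classical
  unfold cnt
  rw [← Set.ncard_coe_finset]
  congr 1
  ext F
  simp

end

end Pool.Agent.Helper19.EM
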