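import Pool.Agent.Helper19.EM.Neck

/-!
# The graphs and the numbers
-/

set_option autoImplicit false

namespace Pool.Agent.Helper19.EM

open Finset Pool.Agent.NC

/-- The graph with the edge set `E`. -/
def gra {n : ℕ} (E : Finset (Sym2 (Fin n))) : SimpleGraph (Fin n) :=
  SimpleGraph.fromEdgeSet (E : Set (Sym2 (Fin n)))

theorem edgeSet_gra {n : ℕ} (E : Finset (Sym2 (Fin n))) (hE : ∀ x ∈ E, ¬ x.IsDiag) :
    (gra E).edgeSet = (E : Set (Sym2 (Fin n))) := by
  unfold gra
  rw [SimpleGraph.edgeSet_fromEdgeSet]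
  ext x
  simp only [Set.mem_sdiff, mem_coe]
  exact ⟨fun h => h.1, fun h => ⟨h, hE x h⟩⟩

theorem isTree_iff {n : ℕ} (G : SimpleGraph (Fin n)) (F : Finset (Sym2 (Fin n)))
    (hF : (F : Set (Sym2 (Fin n))) ⊆ G.edgeSet) :
    (SimpleGraph.fromEdgeSet (F : Set (Sym2 (Fin n)))).IsTree ↔
      (SimpleGraph.fromEdgeSet (F : Set (Sym2 (Fin n)))).Connected ∧ F.card + 1 = n := by
  rw [SimpleGraph.isTree_iff_connected_and_card]
  have h : (SimpleGraph.fromEdgeSet (F : Set (Sym2 (Fin n)))).edgeSet = (F : Set (Sym2 (Fin n))) := by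
    rw [SimpleGraph.edgeSet_fromEdgeSet]
    ext x
    simp only [Set.mem_sdiff, mem_coe]
    exact ⟨fun h => h.1, fun h => ⟨h, G.not_isDiag_of_mem_edgeSet (hF h)⟩⟩
  rw [h]
  simp

theorem connected_of_cnt {n : ℕ} (E : Finset (Sym2 (Fin n))) (s : ℕ) (h : 0 < cnt E ∅ s) :
    (gra E).Connected := by
  unfold cnt at h
  obtain ⟨F, hF⟩ := card_pos.1 h
  have hF' : F ∈ E.powerset ∧ F.card = s ∧ ∅ ⊆ F ∧
      (SimpleGraph.fromEdgeSet (F : Set (Sym2 (Fin n)))).Connected := by
    simpa only [mem_filter] using hF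
  refine hF'.2.2.2.mono ?_
  unfold gra
  exact SimpleGraph.fromEdgeSet_mono (by exact_mod_cast mem_powerset.1 hF'.1)

/-- The edges of the necklace of five triangles. -/
def E5 : Finset (Sym2 (Fin 11)) := insert s(0, 5) L5.toFinset

/-- The edges of the necklace of seven triangles. -/
def E7 : Finset (Sym2 (Fin 15)) := insert s(0, 7) L7.toFinset

theorem diag5 : ∀ x ∈ E5, ¬ x.IsDiag := by decide +kernel

theorem diag7 : ∀ x ∈ E7, ¬ x.IsDiag := by decide +kernel

theorem cnt5 (s : ℕ) (hs : s < 17) :
    cnt E5 ∅ s = (2037065116534610557755634715952189915062640963441317056908462747805555882862830634112385024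
      + 1048576 * 2037065116553137504056162980561591485873898728562543396277815719224822779682183367658307584)
        / 1048576 ^ s % 1048576 ∧
    cnt E5 {s(0, 5)} s =
      (1048576 * 2037065116553137504056162980561591485873898728562543396277815719224822779682183367658307584)
        / 1048576 ^ s % 1048576 :=
  cnt_eq L5.toFinset s(0, 5) notMem5 1048576 _ _ (by rw [card5]; norm_num) Z0_5 Z1_5 s
    (by rw [card5]; exact hs)

theorem cnt7 (s : ℕ) (hs : s < 23) :
    cnt E7 ∅ s = (52374315283092993931364906124446303333090335127514414091967934852688049055445528151716203910555250615624655781406564016612557995185004487802959171682304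
      + 16777216 * 52374315283095598924147633880611892380849492706954880270344518579198339267165256721349434072690948210124786062843166325758248805653008357168940809453568)
        / 16777216 ^ s % 16777216 ∧
    cnt E7 {s(0, 7)} s =
      (16777216 * 52374315283095598924147633880611892380849492706954880270344518579198339267165256721349434072690948210124786062843166325758248805653008357168940809453568)
        / 16777216 ^ s % 16777216 :=
  cnt_eq L7.toFinset s(0, 7) notMem7 16777216 _ _ (by rw [card7]; norm_num) Z0_7 Z1_7 s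
    (by rw [card7]; exact hs)

theorem c5_10 : cnt E5 ∅ 10 = 1053 := by rw [(cnt5 10 (by norm_num)).1]; norm_num
theorem c5_10' : cnt E5 {s(0, 5)} 10 = 810 := by rw [(cnt5 10 (by norm_num)).2]; norm_num
theorem c5_11 : cnt E5 ∅ 11 = 1728 := by rw [(cnt5 11 (by norm_num)).1]; norm_num
theorem c5_11' : cnt E5 {s(0, 5)} 11 = 1323 := by rw [(cnt5 11 (by norm_num)).2]; norm_num

theorem c7_14 : cnt E7 ∅ 14 = 12393 := by rw [(cnt7 14 (by norm_num)).1]; norm_num
theorem c7_14' : cnt E7 {s(0, 7)} 14 = 10206 := by rw [(cnt7 14 (by norm_num)).2]; norm_num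
theorem c7_17 : cnt E7 ∅ 17 = 15498 := by rw [(cnt7 17 (by norm_num)).1]; norm_num
theorem c7_17' : cnt E7 {s(0, 7)} 17 = 12663 := by rw [(cnt7 17 (by norm_num)).2]; norm_num

end Pool.Agent.Helper19.EM
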