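import Pool.Agent.Helper19.EM.Count

/-!
# Two necklaces of triangles

The vertices `0, ..., L` form a cycle; the edge `{0, L}` is single, each other edge `{i, i + 1}` of the
cycle belongs to a triangle with the third vertex `L + 1 + i`. We count the connected spanning edge
sets with the dynamic programme of `Pool.Agent.NC.Dp` for `L = 5` and `L = 7`.
-/

set_option autoImplicit false

namespace Pool.Agent.Helper19.EM

open Finset Pool.Agent.NC

/-! ### `L = 5` -/

/-- The edges of the triangles. -/
def L5 : List (Sym2 (Fin 11)) :=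
  [s(0, 1), s(0, 6), s(6, 1), s(1, 2), s(1, 7), s(7, 2), s(2, 3), s(2, 8), s(8, 3), s(3, 4),
   s(3, 9), s(9, 4), s(4, 5), s(4, 10), s(10, 5)]

/-- The programme. -/
def ops5 : List (Op 11) :=
  [.edge 0 1 1048576 1, .edge 0 6 1048576 1, .edge 6 1 1048576 1, .forget 6, .edge 1 2 1048576 1,
   .edge 1 7 1048576 1, .edge 7 2 1048576 1, .forget 7, .forget 1, .edge 2 3 1048576 1,
   .edge 2 8 1048576 1, .edge 8 3 1048576 1, .forget 8, .forget 2, .edge 3 4 1048576 1,
   .edge 3 9 1048576 1, .edge 9 4 1048576 1, .forget 9, .forget 3, .edge 4 5 1048576 1,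
   .edge 4 10 1048576 1, .edge 10 5 1048576 1, .forget 10, .forget 4]

theorem ok5 : Op.ok ops5 = true := by decide +kernel

theorem edges5 : L5.map (fun i => (gS i, 1048576, 1)) = Op.edges ops5 := rfl

theorem nodup5 : L5.Nodup := by decide

theorem sem0_5 : sem 11 0xA9876543210 = ⊥ := by
  rw [eq_bot_iff]
  have h : ∀ a b : Fin 11, lab 0xA9876543210 a = lab 0xA9876543210 b → a = b := by decide +kernel
  intro a b hab
  exact h a b hab

theorem sem1_5 : sem 11 0xA9876043210 = ⊥ ⊔ gS s(0, 5) := by
  have h : 0xA9876043210 = join 11 0xA9876543210 (0 : Fin 11) (5 : Fin 11) := by decide +kernel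
  rw [h, sem_join, sem0_5]

theorem val0_5 : ZL (phi ℕ) (Op.edges ops5) (sem 11 0xA9876543210) =
    2037065116534610557755634715952189915062640963441317056908462747805555882862830634112385024 :=
  Op.value (by norm_num) ops5 ok5 _ _ (by decide +kernel)

theorem val1_5 : ZL (phi ℕ) (Op.edges ops5) (sem 11 0xA9876043210) =
    2037065116553137504056162980561591485873898728562543396277815719224822779682183367658307584 :=
  Op.value (by norm_num) ops5 ok5 _ _ (by decide +kernel)

theorem Z0_5 : Z gS (fun _ => 1048576) (fun _ => 1) (phi ℕ) L5.toFinset ⊥ =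
    2037065116534610557755634715952189915062640963441317056908462747805555882862830634112385024 := by
  rw [Z_eq_ZL gS (fun _ => 1048576) (fun _ => 1) (phi ℕ) L5 nodup5, edges5, ← sem0_5, val0_5]

theorem Z1_5 : Z gS (fun _ => 1048576) (fun _ => 1) (phi ℕ) L5.toFinset (⊥ ⊔ gS s(0, 5)) =
    2037065116553137504056162980561591485873898728562543396277815719224822779682183367658307584 := by
  rw [Z_eq_ZL gS (fun _ => 1048576) (fun _ => 1) (phi ℕ) L5 nodup5, edges5, ← sem1_5, val1_5]

theorem notMem5 : s(0, 5) ∉ L5.toFinset := by decide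

theorem card5 : (insert s(0, 5) L5.toFinset).card = 16 := by decide

/-! ### `L = 7` -/

/-- The edges of the triangles. -/
def L7 : List (Sym2 (Fin 15)) :=
  [s(0, 1), s(0, 8), s(8, 1), s(1, 2), s(1, 9), s(9, 2), s(2, 3), s(2, 10), s(10, 3), s(3, 4),
   s(3, 11), s(11, 4), s(4, 5), s(4, 12), s(12, 5), s(5, 6), s(5, 13), s(13, 6), s(6, 7),
   s(6, 14), s(14, 7)]

/-- The programme. -/
def ops7 : List (Op 15) :=
  [.edge 0 1 16777216 1, .edge 0 8 16777216 1, .edge 8 1 16777216 1, .forget 8,
   .edge 1 2 16777216 1, .edge 1 9 16777216 1, .edge 9 2 16777216 1, .forget 9, .forget 1,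
   .edge 2 3 16777216 1, .edge 2 10 16777216 1, .edge 10 3 16777216 1, .forget 10, .forget 2,
   .edge 3 4 16777216 1, .edge 3 11 16777216 1, .edge 11 4 16777216 1, .forget 11, .forget 3,
   .edge 4 5 16777216 1, .edge 4 12 16777216 1, .edge 12 5 16777216 1, .forget 12, .forget 4,
   .edge 5 6 16777216 1, .edge 5 13 16777216 1, .edge 13 6 16777216 1, .forget 13, .forget 5,
   .edge 6 7 16777216 1, .edge 6 14 16777216 1, .edge 14 7 16777216 1, .forget 14, .forget 6]

theorem ok7 : Op.ok ops7 = true := by decide +kernel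

theorem edges7 : L7.map (fun i => (gS i, 16777216, 1)) = Op.edges ops7 := rfl

theorem nodup7 : L7.Nodup := by decide

theorem sem0_7 : sem 15 0xEDCBA9876543210 = ⊥ := by
  rw [eq_bot_iff]
  have h : ∀ a b : Fin 15, lab 0xEDCBA9876543210 a = lab 0xEDCBA9876543210 b → a = b := by decide +kernel
  intro a b hab
  exact h a b hab

theorem sem1_7 : sem 15 0xEDCBA9806543210 = ⊥ ⊔ gS s(0, 7) := by
  have h : 0xEDCBA9806543210 = join 15 0xEDCBA9876543210 (0 : Fin 15) (7 : Fin 15) := by decide +kernel
  rw [h, sem_join, sem0_7]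

theorem val0_7 : ZL (phi ℕ) (Op.edges ops7) (sem 15 0xEDCBA9876543210) =
    52374315283092993931364906124446303333090335127514414091967934852688049055445528151716203910555250615624655781406564016612557995185004487802959171682304 :=
  Op.value (by norm_num) ops7 ok7 _ _ (by decide +kernel)

theorem val1_7 : ZL (phi ℕ) (Op.edges ops7) (sem 15 0xEDCBA9806543210) =
    52374315283095598924147633880611892380849492706954880270344518579198339267165256721349434072690948210124786062843166325758248805653008357168940809453568 :=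
  Op.value (by norm_num) ops7 ok7 _ _ (by decide +kernel)

theorem Z0_7 : Z gS (fun _ => 16777216) (fun _ => 1) (phi ℕ) L7.toFinset ⊥ =
    52374315283092993931364906124446303333090335127514414091967934852688049055445528151716203910555250615624655781406564016612557995185004487802959171682304 := by
  rw [Z_eq_ZL gS (fun _ => 16777216) (fun _ => 1) (phi ℕ) L7 nodup7, edges7, ← sem0_7, val0_7]

theorem Z1_7 : Z gS (fun _ => 16777216) (fun _ => 1) (phi ℕ) L7.toFinset (⊥ ⊔ gS s(0, 7)) =
    52374315283095598924147633880611892380849492706954880270344518579198339267165256721349434072690948210124786062843166325758248805653008357168940809453568 := by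
  rw [Z_eq_ZL gS (fun _ => 16777216) (fun _ => 1) (phi ℕ) L7 nodup7, edges7, ← sem1_7, val1_7]

theorem notMem7 : s(0, 7) ∉ L7.toFinset := by decide

theorem card7 : (insert s(0, 7) L7.toFinset).card = 22 := by decide

end Pool.Agent.Helper19.EM
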